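import Pool.Agent.Helper83.RK.Defs
import Pool.Agent.Helper94.HS3.Osc3

/-!
# The slice variation and the energy of the action of a power of the `p`-adic integers
-/

set_option autoImplicit false
set_option linter.unusedSectionVars false
set_option linter.unusedVariables false

open Set MeasureTheory Metric Filter Topology
open scoped NNReal ENNReal

namespace Pool.Agent.Helper83.RK

open Pool.Agent.Helper3.HS

namespace h93

section haar

variable {m p : ℕ} [hp : Fact p.Prime] [MeasurableSpace ℤ_[p]] [BorelSpace ℤ_[p]]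
  {ν : Measure (Gp m p)} [ν.IsAddHaarMeasure]

theorem smulP_embedding : MeasurableEmbedding (fun a : Gp m p => (p : ℤ_[p]) • a) := by
  have hc : Continuous (fun a : Gp m p => (p : ℤ_[p]) • a) := by fun_prop
  have hi : Function.Injective (fun a : Gp m p => (p : ℤ_[p]) • a) := by
    intro a b hab
    have hp0 : (p : ℤ_[p]) ≠ 0 := by exact_mod_cast hp.out.ne_zero
    funext i
    have := congrFun hab i
    exact mul_left_cancel₀ hp0 this
  exact (hc.isClosedEmbedding hi).measurableEmbedding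

/-- The Haar measure and its pull-back under multiplication by `p`. -/
theorem haar_le_comap : ν ≤ ((p : ℝ≥0∞) ^ m) • ν.comap (fun a : Gp m p => (p : ℤ_[p]) • a) := by
  set φ : Gp m p → Gp m p := fun a => (p : ℤ_[p]) • a with hφ
  have hφe : MeasurableEmbedding φ := smulP_embedding
  set κ := ν.comap φ with hκ
  have hκa : ∀ s, κ s = ν (φ '' s) := fun s => hφe.comap_apply ν s
  have hfin : IsFiniteMeasure ν := inferInstance
  have hκfin : IsFiniteMeasure κ := by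
    constructor
    rw [hκa]
    exact measure_lt_top ν _
  have hκinv : κ.IsAddLeftInvariant := by
    constructor
    intro g
    ext s hs
    rw [Measure.map_apply (measurable_const_add g) hs, hκa, hκa]
    have h1 : φ '' ((fun x => g + x) ⁻¹' s) = (fun x => φ g + x) ⁻¹' (φ '' s) := by
      ext x
      constructor
      · rintro ⟨y, hy, rfl⟩
        exact ⟨g + y, hy, by simp only [hφ]; rw [smul_add]⟩
      · rintro ⟨z, hz, hzx⟩
        refine ⟨z - g, ?_, ?_⟩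
        · rw [mem_preimage, add_sub_cancel]
          exact hz
        · simp only [hφ] at hzx ⊢
          rw [smul_sub, hzx]
          abel
    rw [h1, measure_preimage_add]
  have hc := Measure.isAddInvariant_eq_smul_of_compactSpace κ ν
  set c : ℝ≥0 := Measure.addHaarScalarFactor κ ν with hcdef
  -- the total mass
  have hmass : ν univ ≤ (p : ℝ≥0∞) ^ m * κ univ := by
    have hcov : (univ : Set (Gp m p)) ⊆ ⋃ j ∈ (Finset.univ : Finset (Fin m → Fin p)),
        (fun x => -(fun i => ((j i : ℕ) : ℤ_[p])) + x) ⁻¹' (φ '' univ) := by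
      intro a _
      have h3 : ∀ i, ∃ b : ℤ_[p], a i - ((a i).appr 1 : ℤ_[p]) = p * b := by
        intro i
        have h2 := PadicInt.appr_spec 1 (a i)
        rw [pow_one, Ideal.mem_span_singleton] at h2
        exact h2
      choose b hb using h3
      have h1 : ∀ i, (a i).appr 1 < p := fun i => by
        have := PadicInt.appr_lt (a i) 1
        rwa [pow_one] at this
      refine mem_iUnion₂.mpr ⟨fun i => ⟨(a i).appr 1, h1 i⟩, Finset.mem_univ _, b, mem_univ _, ?_⟩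
      funext i
      simp only [hφ, Pi.smul_apply, smul_eq_mul, Pi.add_apply, Pi.neg_apply]
      rw [← hb i]
      ring
    calc ν univ ≤ ν (⋃ j ∈ (Finset.univ : Finset (Fin m → Fin p)),
          (fun x => -(fun i => ((j i : ℕ) : ℤ_[p])) + x) ⁻¹' (φ '' univ)) :=
          measure_mono hcov
      _ ≤ ∑ j ∈ (Finset.univ : Finset (Fin m → Fin p)),
          ν ((fun x => -(fun i => ((j i : ℕ) : ℤ_[p])) + x) ⁻¹' (φ '' univ)) :=
          measure_biUnion_finset_le _ _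
      _ = (p : ℝ≥0∞) ^ m * κ univ := by
          rw [hκa]
          simp_rw [measure_preimage_add]
          rw [Finset.sum_const, Finset.card_univ, Fintype.card_fun, Fintype.card_fin,
            Fintype.card_fin, nsmul_eq_mul]
          push_cast
          rfl
  have hν0 : ν univ ≠ 0 := by
    rw [Ne, Measure.measure_univ_eq_zero]
    exact NeZero.ne ν
  have hνt : ν univ ≠ ∞ := measure_ne_top ν _
  have h1c : 1 ≤ (p : ℝ≥0∞) ^ m * c := by
    rw [hc, Measure.smul_apply, ENNReal.smul_def, smul_eq_mul, ← mul_assoc] at hmass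
    by_contra hlt
    rw [not_le] at hlt
    have h2 : (p : ℝ≥0∞) ^ m * c * ν univ < 1 * ν univ :=
      ENNReal.mul_lt_mul_left hν0 hνt hlt
    rw [one_mul] at h2
    exact absurd hmass (not_le.mpr h2)
  rw [Measure.le_iff]
  intro s hs
  rw [hc, Measure.smul_apply, Measure.smul_apply, ENNReal.smul_def, smul_eq_mul, smul_eq_mul,
    ← mul_assoc]
  calc ν s = 1 * ν s := (one_mul _).symm
    _ ≤ _ := mul_le_mul' h1c le_rfl

theorem lintegral_smul_le (f : Gp m p → ℝ≥0∞) :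
    ∫⁻ a, f ((p : ℤ_[p]) • a) ∂ν ≤ (p : ℝ≥0∞) ^ m * ∫⁻ a, f a ∂ν := by
  set φ : Gp m p → Gp m p := fun a => (p : ℤ_[p]) • a with hφ
  have hφe : MeasurableEmbedding φ := smulP_embedding
  calc ∫⁻ a, f (φ a) ∂ν ≤ ∫⁻ a, f (φ a) ∂(((p : ℝ≥0∞) ^ m) • ν.comap φ) :=
        lintegral_mono' haar_le_comap le_rfl
    _ = (p : ℝ≥0∞) ^ m * ∫⁻ a, f (φ a) ∂(ν.comap φ) := by
        rw [lintegral_smul_measure, smul_eq_mul]
    _ = (p : ℝ≥0∞) ^ m * ∫⁻ a, f a ∂((ν.comap φ).map φ) := by rw [hφe.lintegral_map]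
    _ = (p : ℝ≥0∞) ^ m * ∫⁻ a in range φ, f a ∂ν := by rw [hφe.map_comap]
    _ ≤ (p : ℝ≥0∞) ^ m * ∫⁻ a, f a ∂ν := by gcongr; exact Measure.restrict_le_self

theorem lintegral_pow_smul_le (f : Gp m p → ℝ≥0∞) (k : ℕ) :
    ∫⁻ a, f ((p : ℤ_[p]) ^ k • a) ∂ν ≤ ((p : ℝ≥0∞) ^ m) ^ k * ∫⁻ a, f a ∂ν := by
  induction k with
  | zero => simp
  | succ k ih =>
    have h1 := lintegral_smul_le (ν := ν) (fun a => f ((p : ℤ_[p]) ^ k • a))
    have e1 : ∀ a : Gp m p, (p : ℤ_[p]) ^ (k + 1) • a = (p : ℤ_[p]) ^ k • ((p : ℤ_[p]) • a) := by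
      intro a
      rw [smul_smul, pow_succ]
    simp_rw [e1]
    refine h1.trans ?_
    rw [pow_succ', mul_assoc]
    gcongr

end haar

end h93

section energy
variable {d m p : ℕ} [Fact p.Prime] [MeasurableSpace ℤ_[p]] [BorelSpace ℤ_[p]]
  {ν : Measure (Gp (m + 1) p)} [IsProbabilityMeasure ν] [ν.IsAddHaarMeasure]
  {X : Type*} [MetricSpace X] [MeasurableSpace X] [BorelSpace X] [AddAction (Gp (m + 1) p) X]
  [ContinuousVAdd (Gp (m + 1) p) X]

theorem GV_small {x₀ : X} (hJ : ∃ W ∈ 𝓝 x₀, ∀ ε : ℝ≥0∞, 0 < ε → ∃ h : ℝ, 0 < h ∧ h ≤ 1 ∧ ∫⁻ a,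
      ∫⁻ y in W, Metric.ediam ((fun z => a +ᵥ z) '' (ball y h ∩ W)) ^ (d + 1 + m)
        ∂(μH[((d + 1 : ℕ) : ℝ)] : Measure X) ∂ν ≤ ε * ENNReal.ofReal (h ^ d))
    (e : OpenPartialHomeomorph X (Fin (d + 1) → ℝ)) {C : ℝ≥0} (he : x₀ ∈ e.source)
    (hC : LipschitzOnWith C e e.source) (hC' : LipschitzOnWith C e.symm e.target) :
    ∃ σ₀ > 0, ∀ σ : ℝ, 0 < σ → σ ≤ σ₀ → closedBall (e x₀) σ ⊆ e.target → ∀ (k : ℕ)
      (Γ : Gp (m + 1) p → (Fin (d + 1) → ℝ) → (Fin (d + 1) → ℝ)),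
      (∀ a, ∀ u ∈ closedBall (e x₀) σ, ((p : ℤ_[p]) ^ k • a : Gp (m + 1) p) +ᵥ e.symm u ∈ e.source ∧
        Γ a u = e (((p : ℤ_[p]) ^ k • a : Gp (m + 1) p) +ᵥ e.symm u)) →
      ∀ η : ℝ≥0∞, 0 < η → ∃ N : ℕ, 0 < N ∧ ∫⁻ a, GV (d + 1 + m) (Γ a) (e x₀) σ N ∂ν ≤ η := by
  classical
  have hp : p.Prime := Fact.out
  obtain ⟨W, hW, hJ⟩ := hJ
  have h1 : e.symm ⁻¹' W ∈ 𝓝 (e x₀) := by
    apply (e.symm.continuousAt (e.map_source he)).preimage_mem_nhds
    rw [e.left_inv he]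
    exact hW
  obtain ⟨r₁, hr₁, hball⟩ := Metric.nhds_basis_closedBall.mem_iff.mp h1
  refine ⟨r₁, hr₁, fun r hr hrr hBt k Γ hΓ η hη => ?_⟩
  set B := closedBall (e x₀) r with hBdef
  have hBm : MeasurableSet B := measurableSet_closedBall
  have hBW : ∀ u ∈ B, e.symm u ∈ W := fun u hu =>
    hball (closedBall_subset_closedBall hrr hu)
  set ψ : (Fin (d + 1) → ℝ) → X := B.piecewise e.symm (fun _ => x₀) with hψ
  have hψm : Measurable ψ := ContinuousOn.measurable_piecewise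
    (e.symm.continuousOn.mono hBt) continuousOn_const hBm
  have hψB : ∀ u ∈ B, ψ u = e.symm u := fun u hu => piecewise_eq_of_mem _ _ _ hu
  -- the measure comparison
  have hmeas : (μH[((d + 1 : ℕ) : ℝ)].restrict B).map ψ ≤
      ((C : ℝ≥0∞) ^ ((d + 1 : ℕ) : ℝ)) • (μH[((d + 1 : ℕ) : ℝ)] : Measure X).restrict W := by
    rw [Measure.le_iff]
    intro A hA
    rw [Measure.map_apply hψm hA, Measure.restrict_apply (hψm hA), Measure.smul_apply,
      Measure.restrict_apply hA, smul_eq_mul]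
    have hsub : ψ ⁻¹' A ∩ B ⊆ e '' (A ∩ W ∩ e.source) := by
      rintro u ⟨huA, huB⟩
      rw [mem_preimage, hψB u huB] at huA
      exact ⟨e.symm u, ⟨⟨huA, hBW u huB⟩, e.map_target (hBt huB)⟩, e.right_inv (hBt huB)⟩
    refine (measure_mono hsub).trans ?_
    refine ((hC.mono inter_subset_right).hausdorffMeasure_image_le (Nat.cast_nonneg _)).trans ?_
    exact mul_le_mul' le_rfl (measure_mono inter_subset_left)
  have hCr : ((C : ℝ≥0∞) ^ ((d + 1 : ℕ) : ℝ)) = (C : ℝ≥0∞) ^ (d + 1) := ENNReal.rpow_natCast _ _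
  rw [hCr] at hmeas
  -- the constants
  obtain ⟨c, hc⟩ : ∃ c : ℝ, c = (C : ℝ) := ⟨_, rfl⟩
  have hc0 : 0 ≤ c := by rw [hc]; exact NNReal.coe_nonneg C
  set K : ℝ := (2 * r * c + 1) / (2 * r) with hK
  have hK0 : 0 < K := by positivity
  set P : ℝ≥0∞ := ((p : ℝ≥0∞) ^ (m + 1)) ^ k with hP
  have hPt : P ≠ ∞ := ENNReal.pow_ne_top (ENNReal.pow_ne_top (ENNReal.natCast_ne_top p))
  set A : ℝ≥0∞ := (d + 1) * (ENNReal.ofReal (K ^ d) *
    ((C : ℝ≥0∞) ^ (d + 1 + m) * (C : ℝ≥0∞) ^ (d + 1))) * P with hA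
  have hAt : A ≠ ∞ := by
    apply ENNReal.mul_ne_top _ hPt
    apply ENNReal.mul_ne_top
    · exact ENNReal.add_ne_top.mpr ⟨ENNReal.natCast_ne_top d, ENNReal.one_ne_top⟩
    · apply ENNReal.mul_ne_top ENNReal.ofReal_ne_top
      exact ENNReal.mul_ne_top (ENNReal.pow_ne_top ENNReal.coe_ne_top)
        (ENNReal.pow_ne_top ENNReal.coe_ne_top)
  have hA1 : A + 1 ≠ 0 := by simp
  have hA1t : A + 1 ≠ ∞ := ENNReal.add_ne_top.mpr ⟨hAt, ENNReal.one_ne_top⟩
  obtain ⟨h, h0, h1', hle⟩ := hJ (η / (A + 1)) (ENNReal.div_pos hη.ne' hA1t)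
  set N : ℕ := ⌊2 * r * c / h⌋₊ + 1 with hN
  have hNpos : 0 < N := Nat.succ_pos _
  have hN' : (0 : ℝ) < N := by exact_mod_cast hNpos
  have hN1 : 2 * r * c / h < N := by
    rw [hN]; push_cast
    exact Nat.lt_floor_add_one _
  have hN2 : (N : ℝ) ≤ (2 * r * c + 1) / h := by
    rw [hN]; push_cast
    have h3 : (⌊2 * r * c / h⌋₊ : ℝ) ≤ 2 * r * c / h := Nat.floor_le (by positivity)
    have h4 : 1 ≤ 1 / h := by rw [le_div_iff₀ h0]; linarith
    rw [add_div]
    linarith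
  refine ⟨N, hNpos, ?_⟩
  set E : Gp (m + 1) p → ℝ≥0∞ := fun a => ∫⁻ y in W,
    Metric.ediam ((fun z => a +ᵥ z) '' (ball y h ∩ W)) ^ (d + 1 + m)
      ∂(μH[((d + 1 : ℕ) : ℝ)] : Measure X) with hE
  set κ : ℝ≥0∞ := ENNReal.ofReal ((N / (2 * r)) ^ d) with hκ
  set M : ℝ≥0∞ := (d + 1) * (κ * ((C : ℝ≥0∞) ^ (d + 1 + m) * (C : ℝ≥0∞) ^ (d + 1))) with hM
  have hMt : M ≠ ∞ := by
    apply ENNReal.mul_ne_top
    · exact ENNReal.add_ne_top.mpr ⟨ENNReal.natCast_ne_top d, ENNReal.one_ne_top⟩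
    · apply ENNReal.mul_ne_top ENNReal.ofReal_ne_top
      exact ENNReal.mul_ne_top (ENNReal.pow_ne_top ENNReal.coe_ne_top)
        (ENNReal.pow_ne_top ENNReal.coe_ne_top)
  have hone : ∀ a, GV (d + 1 + m) (Γ a) (e x₀) r N ≤ M * E ((p : ℤ_[p]) ^ k • a) := by
    intro a
    set gX : X → ℝ≥0∞ := fun y =>
      Metric.ediam ((fun z => ((p : ℤ_[p]) ^ k • a : Gp (m + 1) p) +ᵥ z) '' (ball y h ∩ W))
      with hgX
    have hgXm : Measurable gX := measurable_osc _ W h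
    set g : (Fin (d + 1) → ℝ) → ℝ≥0∞ := fun u => C * gX (ψ u) with hg
    have hgm : Measurable g := (hgXm.comp hψm).const_mul _
    have hosc : ∀ u ∈ closedBall (e x₀) r, ∀ v ∈ closedBall (e x₀) r, ∀ w ∈ closedBall (e x₀) r,
        dist u v ≤ 2 * r / N → dist u w ≤ 2 * r / N →
        edist (Γ a v) (Γ a w) ≤ g u := by
      intro u hu v hv w hw huv huw
      have hball' : ∀ v ∈ B, dist u v ≤ 2 * r / N → e.symm v ∈ ball (ψ u) h ∩ W := by
        intro v hv huv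
        refine ⟨?_, hBW v hv⟩
        rw [mem_ball, hψB u hu, dist_comm]
        have h3 : dist (e.symm u) (e.symm v) ≤ c * dist u v := by
          rw [hc]
          exact hC'.dist_le_mul u (hBt hu) v (hBt hv)
        have h4 : c * dist u v ≤ c * (2 * r / N) := by gcongr
        have h5 : c * (2 * r / N) < h := by
          rw [div_lt_iff₀ h0] at hN1
          have h6 : c * (2 * r / N) = 2 * r * c / N := by ring
          rw [h6, div_lt_iff₀ hN']
          linarith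
        linarith
      have h3 := hC (hΓ a v hv).1 (hΓ a w hw).1
      rw [(hΓ a v hv).2, (hΓ a w hw).2]
      refine h3.trans ?_
      rw [hg]
      simp only
      gcongr
      exact Metric.edist_le_ediam_of_mem ⟨e.symm v, hball' v hv huv, rfl⟩
        ⟨e.symm w, hball' w hw huw, rfl⟩
    have hmain := GV_le_osc (e := d + 1 + m) hr hNpos hgm hosc
    refine hmain.trans ?_
    have hint : ∫⁻ u in B, g u ^ (d + 1 + m) ≤
        (C : ℝ≥0∞) ^ (d + 1 + m) * ((C : ℝ≥0∞) ^ (d + 1) * E ((p : ℤ_[p]) ^ k • a)) := by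
      have e1 : ∫⁻ u in B, g u ^ (d + 1 + m) =
          (C : ℝ≥0∞) ^ (d + 1 + m) * ∫⁻ u in B, gX (ψ u) ^ (d + 1 + m) := by
        rw [← lintegral_const_mul' _ _ (ENNReal.pow_ne_top ENNReal.coe_ne_top)]
        congr 1
        funext u
        rw [hg, mul_pow]
      rw [e1]
      gcongr
      rw [← hausdorff_eq_volume]
      have e2 : ∫⁻ u in B, gX (ψ u) ^ (d + 1 + m) ∂(μH[((d + 1 : ℕ) : ℝ)]) =
          ∫⁻ y, gX y ^ (d + 1 + m) ∂((μH[((d + 1 : ℕ) : ℝ)].restrict B).map ψ) := by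
        rw [lintegral_map (hgXm.pow_const _) hψm]
      rw [e2]
      refine (lintegral_mono' hmeas le_rfl).trans ?_
      rw [lintegral_smul_measure, smul_eq_mul]
    calc ((d : ℝ≥0∞) + 1) * (κ * ∫⁻ u in B, g u ^ (d + 1 + m))
        ≤ (d + 1) * (κ * ((C : ℝ≥0∞) ^ (d + 1 + m) * ((C : ℝ≥0∞) ^ (d + 1)
          * E ((p : ℤ_[p]) ^ k • a)))) := by gcongr
      _ = M * E ((p : ℤ_[p]) ^ k • a) := by rw [hM]; ring
  have hNK : κ * ENNReal.ofReal (h ^ d) ≤ ENNReal.ofReal (K ^ d) := by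
    rw [hκ, ← ENNReal.ofReal_mul (by positivity), ← mul_pow]
    apply ENNReal.ofReal_le_ofReal
    apply pow_le_pow_left₀ (by positivity)
    rw [hK, div_mul_eq_mul_div]
    apply div_le_div_of_nonneg_right _ (by positivity)
    rw [le_div_iff₀ h0] at hN2
    exact hN2
  calc ∫⁻ a, GV (d + 1 + m) (Γ a) (e x₀) r N ∂ν
      ≤ ∫⁻ a, M * E ((p : ℤ_[p]) ^ k • a) ∂ν := lintegral_mono hone
    _ = M * ∫⁻ a, E ((p : ℤ_[p]) ^ k • a) ∂ν := lintegral_const_mul' _ _ hMt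
    _ ≤ M * (P * ∫⁻ a, E a ∂ν) := by
        gcongr
        exact h93.lintegral_pow_smul_le E k
    _ ≤ M * (P * (η / (A + 1) * ENNReal.ofReal (h ^ d))) := by gcongr
    _ = (d + 1) * ((κ * ENNReal.ofReal (h ^ d)) *
        ((C : ℝ≥0∞) ^ (d + 1 + m) * (C : ℝ≥0∞) ^ (d + 1))) * P * (η / (A + 1)) := by
        rw [hM]; ring
    _ ≤ A * (η / (A + 1)) := by
        rw [hA]
        gcongr
    _ ≤ (A + 1) * (η / (A + 1)) := by gcongr; exact le_self_add
    _ = η := ENNReal.mul_div_cancel hA1 hA1t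

end energy

end Pool.Agent.Helper83.RK
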